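import Pool.Agent.H54.KB.Chains
import Pool.Agent.H13.KB.Chern
import Pool.Agent.H47.KB.Defs

/-!
# Counting the exponents without many disjoint chains

The variables are indexed by `Fin k × Fin n`; the variable with index `(j, i)` has weight `j + 1`. For
`m = 30 k n l`, `l` large, the number of exponents of weight `m` which do not contain `l` disjoint chains is at
most `2 ^ (k + 1) e √M exp (k / 2) 16 ^ (-(k + 1 - n)) m ^ M / (M! (k!) ^ n)`, `M = k n - 1`.
-/

namespace Pool.Agent.H54.KB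

open Finset Real Filter
open Pool.Agent.H47.KB (wt)

/-- the weight is a sum over all variables -/
theorem weight_eq {n k : ℕ} (a : Fin k × Fin n →₀ ℕ) :
    Finsupp.weight (wt n k) a = ∑ x, ((x.1 : ℕ) + 1) * a x := by
  rw [Finsupp.weight_apply, Finsupp.sum_fintype _ _ fun x => by simp]
  refine sum_congr rfl fun x _ => ?_
  rw [smul_eq_mul, mul_comm]
  rfl

/-- The Chernoff bound for one cut `C`. -/
theorem card_one {n k m l : ℕ} (C : Finset (Fin k × Fin n)) (x₀ : Fin k × Fin n)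
    (h0 : (x₀.1 : ℕ) = 0) (hC : x₀ ∉ C) (S θ : ℝ) (hS : 0 < S) (hθ : 0 ≤ θ) :
    (Nat.card {a : Fin k × Fin n →₀ ℕ // Finsupp.weight (wt n k) a = m ∧ ∑ x ∈ C, a x < l} : ℝ) ≤
      exp (S * m + θ * l) * ∏ x : {x : Fin k × Fin n // x ≠ x₀},
        (1 + (S * ((x.1.1 : ℕ) + 1) + if x.1 ∈ C then θ else 0)) /
          (S * ((x.1.1 : ℕ) + 1) + if x.1 ∈ C then θ else 0) := by
  classical
  let W : ({x : Fin k × Fin n // x ≠ x₀} → ℕ) → ℕ := fun b => ∑ x, ((x.1.1 : ℕ) + 1) * b x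
  let G : ({x : Fin k × Fin n // x ≠ x₀} → ℕ) → ℕ := fun b => ∑ x, if x.1 ∈ C then b x else 0
  let T : Finset ({x : Fin k × Fin n // x ≠ x₀} → ℕ) :=
    (Fintype.piFinset fun _ => range (m + 1)).filter fun b => W b ≤ m ∧ G b ≤ l
  have hsplit : ∀ (g : Fin k × Fin n → ℕ), ∑ x, g x = (∑ x : {x // x ≠ x₀}, g x) + g x₀ := by
    intro g
    rw [← Finset.sum_erase_add univ g (mem_univ x₀)]
    congr 1
    rw [← Finset.sum_subtype (univ.erase x₀) (p := fun x => x ≠ x₀) (by simp) g]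
  have hW : ∀ a : Fin k × Fin n →₀ ℕ,
      Finsupp.weight (wt n k) a = W (fun x => a x.1) + a x₀ := by
    intro a
    rw [weight_eq, hsplit fun x => ((x.1 : ℕ) + 1) * a x, h0]
    simp [W]
  have hG : ∀ a : Fin k × Fin n →₀ ℕ, ∑ x ∈ C, a x = G (fun x => a x.1) := by
    intro a
    have e1 : ∑ x ∈ C, a x = ∑ x, if x ∈ C then a x else 0 := by
      rw [← sum_filter]
      congr 1
      ext x
      simp
    rw [e1, hsplit fun x => if x ∈ C then a x else 0, if_neg hC, add_zero]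
  have hcard : Nat.card {a : Fin k × Fin n →₀ ℕ // Finsupp.weight (wt n k) a = m ∧
      ∑ x ∈ C, a x < l} ≤ T.card := by
    have hmem : ∀ a : {a : Fin k × Fin n →₀ ℕ // Finsupp.weight (wt n k) a = m ∧
        ∑ x ∈ C, a x < l}, (fun x : {x : Fin k × Fin n // x ≠ x₀} => a.1 x.1) ∈ T := by
      rintro ⟨a, ha, ha'⟩
      rw [mem_filter, Fintype.mem_piFinset]
      rw [hW] at ha
      rw [hG] at ha'
      refine ⟨fun x => ?_, ?_, ha'.le⟩
      · rw [mem_range]
        have h1 : ((x.1.1 : ℕ) + 1) * a x.1 ≤ W (fun x => a x.1) :=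
          single_le_sum (f := fun x : {x : Fin k × Fin n // x ≠ x₀} => ((x.1.1 : ℕ) + 1) * a x.1)
            (fun _ _ => Nat.zero_le _) (mem_univ x)
        have h2 : a x.1 ≤ ((x.1.1 : ℕ) + 1) * a x.1 := Nat.le_mul_of_pos_left _ (Nat.succ_pos _)
        show a x.1 < m + 1
        omega
      · show W (fun x => a x.1) ≤ m
        omega
    have h7 := Nat.card_le_card_of_injective
      (fun a : {a : Fin k × Fin n →₀ ℕ // Finsupp.weight (wt n k) a = m ∧ ∑ x ∈ C, a x < l} =>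
        (⟨fun x : {x : Fin k × Fin n // x ≠ x₀} => a.1 x.1, hmem a⟩ : {z // z ∈ T})) (by
        rintro ⟨a, ha, _⟩ ⟨a', ha', _⟩ h
        have h := congrArg Subtype.val h
        simp only at h
        rw [hW] at ha ha'
        rw [h] at ha
        refine Subtype.ext (Finsupp.ext fun x => ?_)
        show a x = a' x
        by_cases hx : x = x₀
        · subst hx
          omega
        · exact congrFun h ⟨x, hx⟩)
    refine h7.trans (le_of_eq ?_)
    rw [Nat.card_eq_fintype_card, Fintype.card_coe]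
  set c : {x : Fin k × Fin n // x ≠ x₀} → ℝ := fun x =>
    S * ((x.1.1 : ℕ) + 1) + if x.1 ∈ C then θ else 0 with hc
  have hcpos : ∀ x, 0 < c x := by
    intro x
    have h1 : (0 : ℝ) ≤ (x.1.1 : ℕ) := Nat.cast_nonneg _
    have h2 : (0 : ℝ) ≤ if x.1 ∈ C then θ else 0 := by split_ifs <;> linarith
    have h3 : 0 < S * (((x.1.1 : ℕ) : ℝ) + 1) := by positivity
    rw [hc]
    simp only
    linarith
  have hT : (T.card : ℝ) ≤ ∑ b ∈ T, exp (S * m + θ * l) * exp (-∑ x, c x * b x) := by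
    rw [card_eq_sum_ones]
    push_cast
    refine sum_le_sum fun b hb => ?_
    rw [mem_filter] at hb
    obtain ⟨-, h1, h2⟩ := hb
    rw [← exp_add]
    refine Real.one_le_exp ?_
    have e1 : ∑ x, c x * b x = S * (W b : ℝ) + θ * (G b : ℝ) := by
      simp only [W, G, hc]
      push_cast
      rw [mul_sum, mul_sum, ← sum_add_distrib]
      refine sum_congr rfl fun x _ => ?_
      split_ifs <;> ring
    rw [e1]
    have h3 : (W b : ℝ) ≤ m := by exact_mod_cast h1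
    have h4 : (G b : ℝ) ≤ l := by exact_mod_cast h2
    nlinarith [mul_le_mul_of_nonneg_left h3 hS.le, mul_le_mul_of_nonneg_left h4 hθ]
  have hsum : ∑ b ∈ T, exp (S * m + θ * l) * exp (-∑ x, c x * b x) ≤
      exp (S * m + θ * l) * ∏ x, (1 + c x) / c x := by
    rw [← mul_sum]
    refine mul_le_mul_of_nonneg_left ?_ (exp_pos _).le
    exact le_trans (sum_le_sum_of_subset_of_nonneg (filter_subset _ _) fun _ _ _ =>
      (exp_pos _).le) (Pool.Agent.H13.KB.geo_sum (m + 1) c hcpos)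
  calc (Nat.card {a : Fin k × Fin n →₀ ℕ // Finsupp.weight (wt n k) a = m ∧
          ∑ x ∈ C, a x < l} : ℝ) ≤ T.card := by exact_mod_cast hcard
    _ ≤ _ := hT
    _ ≤ _ := hsum

/-- the product of `16⁻¹` over the cells of `C` -/
theorem prod_cut {n k : ℕ} (C : Finset (Fin k × Fin n)) (x₀ : Fin k × Fin n) (hC : x₀ ∉ C) :
    ∏ x : {x : Fin k × Fin n // x ≠ x₀}, (if x.1 ∈ C then (1 / 16 : ℝ) else 1) =
      (1 / 16) ^ C.card := by
  classical
  rw [Pool.Agent.H13.KB.prod_ne x₀ (fun x : Fin k × Fin n => if x ∈ C then (1 / 16 : ℝ) else 1)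
    (by rw [if_neg hC]; norm_num), if_neg hC, div_one, prod_ite, prod_const, prod_const_one, mul_one]
  congr 2
  ext x
  simp

/-- the product of the weights -/
theorem prod_wt {n k : ℕ} (x₀ : Fin k × Fin n) (h0 : (x₀.1 : ℕ) = 0) :
    ∏ x : {x : Fin k × Fin n // x ≠ x₀}, (((x.1.1 : ℕ) : ℝ) + 1)⁻¹ = ((k.factorial : ℝ) ^ n)⁻¹ := by
  rw [Pool.Agent.H13.KB.prod_ne x₀ (fun x : Fin k × Fin n => (((x.1 : ℕ) : ℝ) + 1)⁻¹)
    (by rw [h0]; norm_num), h0]
  simp only [CharP.cast_eq_zero, zero_add, inv_one, div_one]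
  rw [Fintype.prod_prod_type]
  simp only [prod_const, card_univ, Fintype.card_fin]
  rw [prod_pow, ← inv_pow]
  congr 1
  rw [Fin.prod_univ_eq_prod_range (fun j => ((j : ℝ) + 1)⁻¹) k, ← Finset.prod_range_add_one_eq_factorial]
  push_cast
  rw [prod_inv_distrib]

/-- The bound for one cut. -/
theorem card_one_le {n k l M : ℕ} (hn : 1 ≤ n) (hk : 1 ≤ k) (hM : M + 1 = k * n) (hM1 : 1 ≤ M)
    (hl : 2 * M * k ≤ l) (C : Finset (Fin k × Fin n)) (x₀ : Fin k × Fin n)
    (h0 : (x₀.1 : ℕ) = 0) (hC : x₀ ∉ C) :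
    (Nat.card {a : Fin k × Fin n →₀ ℕ // Finsupp.weight (wt n k) a = 30 * k * n * l ∧
      ∑ x ∈ C, a x < l} : ℝ) ≤
      2 * (exp 1 * √M) * exp (k / 2) * (1 / 16) ^ C.card *
        (((30 * k * n * l : ℕ) : ℝ) ^ M / (M.factorial * (k.factorial : ℝ) ^ n)) := by
  have hk0 : (1 : ℝ) ≤ k := by exact_mod_cast hk
  have hn0 : (1 : ℝ) ≤ n := by exact_mod_cast hn
  have hM0 : (1 : ℝ) ≤ M := by exact_mod_cast hM1
  have hlr : 2 * (M : ℝ) * k ≤ l := by exact_mod_cast hl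
  have hl0 : (0 : ℝ) < l := by nlinarith
  have hMr : (M : ℝ) ≤ k * n := by
    have : ((M + 1 : ℕ) : ℝ) = ((k * n : ℕ) : ℝ) := by rw [hM]
    push_cast at this
    linarith
  set m : ℝ := ((30 * k * n * l : ℕ) : ℝ) with hm
  have hmeq : m = 30 * k * n * l := by rw [hm]; push_cast; ring
  have hm0 : 0 < m := by rw [hmeq]; positivity
  set S : ℝ := M / m with hS
  have hS0 : 0 < S := by positivity
  set θ : ℝ := k / 2 / l with hθ
  have hθ0 : 0 < θ := by positivity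
  have h1 := card_one (m := 30 * k * n * l) (l := l) C x₀ h0 hC S θ hS0 hθ0.le
  have h2 : S * ((30 * k * n * l : ℕ) : ℝ) + θ * l = M + k / 2 := by
    rw [← hm, hS, hθ]
    field_simp
  rw [h2, exp_add] at h1
  -- sizes
  have hSk : S * k ≤ k / 30 / l := by
    rw [hS, hmeq, div_mul_eq_mul_div, div_div, div_le_div_iff₀ (by positivity) (by positivity)]
    nlinarith [mul_le_mul_of_nonneg_left hMr (by positivity : (0 : ℝ) ≤ k * (30 * l))]
  have h15 : ∀ x : {x : Fin k × Fin n // x ≠ x₀}, 15 * (S * (((x.1.1 : ℕ) : ℝ) + 1)) ≤ θ := by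
    intro x
    have h3 : (((x.1.1 : ℕ) : ℝ)) + 1 ≤ k := by exact_mod_cast x.1.1.isLt
    have h4 : S * (((x.1.1 : ℕ) : ℝ) + 1) ≤ S * k := mul_le_mul_of_nonneg_left h3 hS0.le
    have h5 : 15 * (k / 30 / l : ℝ) = θ := by
      rw [hθ]
      ring
    linarith
  -- the product
  have h3 : ∏ x : {x : Fin k × Fin n // x ≠ x₀},
      (1 + (S * (((x.1.1 : ℕ) : ℝ) + 1) + if x.1 ∈ C then θ else 0)) /
          (S * (((x.1.1 : ℕ) : ℝ) + 1) + if x.1 ∈ C then θ else 0) ≤
      (1 + (S * k + θ)) ^ M * ((S⁻¹) ^ M * ((1 / 16) ^ C.card * ((k.factorial : ℝ) ^ n)⁻¹)) := by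
    classical
    have hc : Fintype.card {x : Fin k × Fin n // x ≠ x₀} = M := by
      rw [Fintype.card_subtype_compl, Fintype.card_subtype_eq, Fintype.card_prod,
        Fintype.card_fin, Fintype.card_fin]
      omega
    rw [← prod_cut C x₀ hC, ← prod_wt x₀ h0]
    have e1 : (1 + (S * k + θ)) ^ M * ((S⁻¹) ^ M *
        ((∏ x : {x : Fin k × Fin n // x ≠ x₀}, (if x.1 ∈ C then (1 / 16 : ℝ) else 1)) *
          ∏ x : {x : Fin k × Fin n // x ≠ x₀}, (((x.1.1 : ℕ) : ℝ) + 1)⁻¹)) =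
        ∏ x : {x : Fin k × Fin n // x ≠ x₀}, ((1 + (S * k + θ)) * (S⁻¹ *
          ((if x.1 ∈ C then (1 / 16 : ℝ) else 1) * (((x.1.1 : ℕ) : ℝ) + 1)⁻¹))) := by
      rw [prod_mul_distrib, prod_mul_distrib, prod_mul_distrib, prod_const, prod_const, card_univ, hc]
    rw [e1]
    have hpos : ∀ x : {x : Fin k × Fin n // x ≠ x₀}, 0 < S * (((x.1.1 : ℕ) : ℝ) + 1) := by
      intro x
      have : (0 : ℝ) ≤ ((x.1.1 : ℕ) : ℝ) := Nat.cast_nonneg _
      positivity
    refine prod_le_prod (fun x _ => ?_) fun x _ => ?_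
    · have h4 := hpos x
      split_ifs <;> positivity
    · have h4 := hpos x
      have h5 := h15 x
      have h6 : (0 : ℝ) ≤ ((x.1.1 : ℕ) : ℝ) := Nat.cast_nonneg _
      have h7 : (((x.1.1 : ℕ) : ℝ)) + 1 ≤ k := by exact_mod_cast x.1.1.isLt
      have h8 : S * (((x.1.1 : ℕ) : ℝ) + 1) ≤ S * k := mul_le_mul_of_nonneg_left h7 hS0.le
      have e2 : S⁻¹ * (1 * (((x.1.1 : ℕ) : ℝ) + 1)⁻¹) = (S * (((x.1.1 : ℕ) : ℝ) + 1))⁻¹ := by
        rw [one_mul, mul_inv]
      split_ifs with hx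
      · have e3 : S⁻¹ * (1 / 16 * (((x.1.1 : ℕ) : ℝ) + 1)⁻¹) =
            (16 * (S * (((x.1.1 : ℕ) : ℝ) + 1)))⁻¹ := by
          rw [mul_inv, mul_inv]
          ring
        rw [e3, div_eq_mul_inv]
        have h9 : (S * (((x.1.1 : ℕ) : ℝ) + 1) + θ)⁻¹ ≤ (16 * (S * (((x.1.1 : ℕ) : ℝ) + 1)))⁻¹ :=
          inv_anti₀ (by positivity) (by linarith)
        have h10 : 1 + (S * (((x.1.1 : ℕ) : ℝ) + 1) + θ) ≤ 1 + (S * k + θ) := by linarith
        exact mul_le_mul h10 h9 (by positivity) (by positivity)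
      · rw [e2, div_eq_mul_inv, add_zero]
        have h10 : 1 + (S * (((x.1.1 : ℕ) : ℝ) + 1)) ≤ 1 + (S * k + θ) := by linarith
        exact mul_le_mul_of_nonneg_right h10 (by positivity)
  have h5 : (1 + (S * k + θ)) ^ M ≤ 2 := by
    have h6 : (S * k + θ) * M ≤ 1 / 2 := by
      have h7 : S * k + θ ≤ k / l := by
        have h8 : k / 30 / l + θ ≤ k / (l : ℝ) := by
          rw [hθ, div_div, div_div, ← sub_nonneg]
          have e : (k : ℝ) / l - (k / (30 * l) + k / (2 * l)) = k / l * (7 / 15) := by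
            field_simp
            ring
          rw [e]
          positivity
        linarith
      calc (S * k + θ) * M ≤ k / l * M := by gcongr
        _ ≤ 1 / 2 := by
          rw [div_mul_eq_mul_div, div_le_div_iff₀ hl0 (by norm_num)]
          nlinarith
    calc (1 + (S * k + θ)) ^ M ≤ (exp (S * k + θ)) ^ M := by
          have := add_one_le_exp (S * k + θ)
          gcongr
          linarith
      _ = exp ((S * k + θ) * M) := by rw [← exp_nat_mul]; congr 1; ring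
      _ ≤ exp (1 / 2) := exp_le_exp.2 h6
      _ ≤ 2 := by
          have h7 : exp (1 / 2 : ℝ) ^ 2 ≤ 4 := by
            rw [← exp_nat_mul]
            norm_num
            have := exp_one_lt_d9
            linarith
          nlinarith [exp_pos (1 / 2 : ℝ)]
  have h6 : (S⁻¹) ^ M = m ^ M / (M : ℝ) ^ M := by
    rw [hS, inv_div, div_pow]
  have h7 : exp (M : ℝ) / (M : ℝ) ^ M ≤ exp 1 * √M / M.factorial := by
    rw [div_le_div_iff₀ (by positivity) (by positivity)]
    have h8 := Pool.Agent.H13.KB.factorial_le M hM1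
    have h9 : ((M : ℝ) / exp 1) ^ M = (M : ℝ) ^ M / exp (M : ℝ) := by
      rw [div_pow, ← exp_nat_mul, mul_one]
    rw [h9] at h8
    calc exp (M : ℝ) * (M.factorial : ℝ) ≤
          exp (M : ℝ) * (exp 1 * √M * ((M : ℝ) ^ M / exp (M : ℝ))) := by gcongr
      _ = exp 1 * √M * (M : ℝ) ^ M := by field_simp
  refine h1.trans ?_
  calc exp M * exp (k / 2) * _
      ≤ exp M * exp (k / 2) * ((1 + (S * k + θ)) ^ M *
        ((S⁻¹) ^ M * ((1 / 16) ^ C.card * ((k.factorial : ℝ) ^ n)⁻¹))) :=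
          mul_le_mul_of_nonneg_left h3 (by positivity)
    _ ≤ exp M * exp (k / 2) * (2 *
        ((S⁻¹) ^ M * ((1 / 16) ^ C.card * ((k.factorial : ℝ) ^ n)⁻¹))) := by gcongr
    _ = (exp M / M ^ M) * (2 * exp (k / 2) * (1 / 16) ^ C.card *
        (m ^ M * ((k.factorial : ℝ) ^ n)⁻¹)) := by
          rw [h6]
          ring
    _ ≤ (exp 1 * √M / M.factorial) * (2 * exp (k / 2) * (1 / 16) ^ C.card *
        (m ^ M * ((k.factorial : ℝ) ^ n)⁻¹)) := by gcongr
    _ = _ := by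
          field_simp

/-- **COUNT.** The number of exponents of weight `30 k n l` without `l` disjoint chains. -/
theorem count_le {n k l M : ℕ} (hn : 2 ≤ n) (hk : 1 ≤ k) (hM : M + 1 = k * n)
    (hl : 2 * M * k ≤ l) :
    (Nat.card {a : Fin k × Fin n →₀ ℕ // Finsupp.weight (wt n k) a = 30 * k * n * l ∧
      ¬ Packed l a} : ℝ) ≤
      2 ^ (k + 1) * (exp 1 * √M) * exp (k / 2) / 16 ^ (k + 1 - n) *
        (((30 * k * n * l : ℕ) : ℝ) ^ M / (M.factorial * (k.factorial : ℝ) ^ n)) := by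
  classical
  have hM1 : 1 ≤ M := by
    have : 2 ≤ k * n := by nlinarith
    omega
  set m := 30 * k * n * l with hm
  let B : Finset ℕ → Set (Fin k × Fin n →₀ ℕ) := fun D =>
    {a | Finsupp.weight (wt n k) a = m ∧ ∑ x ∈ cut n k D, a x < l}
  let 𝒟 : Finset (Finset ℕ) := (range k).powerset.filter fun D => D.card < n
  have hfin : {a : Fin k × Fin n →₀ ℕ | Finsupp.weight (wt n k) a ≤ m}.Finite :=
    Finsupp.finite_of_nat_weight_le (wt n k) (fun x => by simp [wt]) m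
  have hsub : {a : Fin k × Fin n →₀ ℕ | Finsupp.weight (wt n k) a = m ∧ ¬ Packed l a} ⊆
      ⋃ D ∈ 𝒟, B D := by
    rintro a ⟨ha, ha'⟩
    obtain ⟨D, hD, hc, hs⟩ := exists_cut_of_not_packed (by omega) l a ha'
    rw [Set.mem_iUnion₂]
    exact ⟨D, mem_filter.2 ⟨mem_powerset.2 hD, hc⟩, ha, hs⟩
  have hfin' : (⋃ D ∈ 𝒟, B D).Finite := by
    refine hfin.subset ?_
    intro a ha
    rw [Set.mem_iUnion₂] at ha
    obtain ⟨D, _, ha, _⟩ := ha
    exact ha.le
  have h1 : Nat.card {a : Fin k × Fin n →₀ ℕ // Finsupp.weight (wt n k) a = m ∧ ¬ Packed l a} ≤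
      ∑ D ∈ 𝒟, (B D).ncard := by
    have h2 := Set.ncard_le_ncard hsub hfin'
    exact h2.trans (Finset.set_ncard_biUnion_le 𝒟 B)
  set K : ℝ := 2 * (exp 1 * √M) * exp (k / 2) * (1 / 16) ^ (k + 1 - n) *
    (((30 * k * n * l : ℕ) : ℝ) ^ M / (M.factorial * (k.factorial : ℝ) ^ n)) with hK
  have h3 : ∀ D ∈ 𝒟, ((B D).ncard : ℝ) ≤ K := by
    intro D hD
    rw [mem_filter, mem_powerset] at hD
    obtain ⟨i, hi⟩ := exists_free (n := n) (k := k) hn hk D
    have h4 := card_one_le (n := n) (k := k) (l := l) (M := M) (by omega) hk hM hM1 hl (cut n k D)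
      (⟨0, hk⟩, i) rfl hi
    refine h4.trans ?_
    have h5 := card_cut (n := n) (k := k) (by omega) D hD.1 hD.2
    have h6 : ((1 : ℝ) / 16) ^ (cut n k D).card ≤ (1 / 16) ^ (k + 1 - n) :=
      pow_le_pow_of_le_one (by norm_num) (by norm_num) h5
    rw [hK]
    gcongr
  have h7 : (𝒟.card : ℝ) ≤ 2 ^ k := by
    have : 𝒟.card ≤ 2 ^ k := by
      refine (card_filter_le _ _).trans (le_of_eq ?_)
      rw [card_powerset, card_range]
    exact_mod_cast this
  have hK0 : 0 ≤ K := by rw [hK]; positivity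
  calc (Nat.card {a : Fin k × Fin n →₀ ℕ // Finsupp.weight (wt n k) a = m ∧ ¬ Packed l a} : ℝ)
      ≤ ((∑ D ∈ 𝒟, (B D).ncard : ℕ) : ℝ) := by exact_mod_cast h1
    _ = ∑ D ∈ 𝒟, ((B D).ncard : ℝ) := by push_cast; rfl
    _ ≤ ∑ D ∈ 𝒟, K := sum_le_sum h3
    _ = 𝒟.card * K := by rw [sum_const, nsmul_eq_mul]
    _ ≤ 2 ^ k * K := mul_le_mul_of_nonneg_right h7 hK0
    _ = _ := by
        rw [hK, one_div, inv_pow]
        ring

end Pool.Agent.H54.KB
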