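import Mathlib

/-!
# Disjoint chains in an `n × k` matrix of natural numbers

A chain consists of one entry of every row, in strictly increasing columns. If the entries of a matrix do
not contain `p` disjoint chains (with multiplicities) then there is a cut: a set of entries in different
columns, at least `k + 1 - n` many, whose sum is less than `p`.
-/

namespace Pool.Agent.H54.KB

open Finset

/-- The number of the first `p` partial chains whose entry in row `i - 1` is in one of the first `j`
columns. -/
def flow (A : ℕ → ℕ → ℕ) (p : ℕ) : ℕ → ℕ → ℕ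
  | 0, i => if i = 0 then p else 0
  | _ + 1, 0 => p
  | j + 1, i + 1 => min (flow A p j i) (flow A p j (i + 1) + A i j)

variable {A : ℕ → ℕ → ℕ} {p : ℕ}

theorem flow_zero (j : ℕ) : flow A p j 0 = p := by
  cases j <;> simp [flow]

theorem flow_le_add (j i : ℕ) : flow A p (j + 1) (i + 1) ≤ flow A p j (i + 1) + A i j := by
  rw [flow]
  exact min_le_right _ _

theorem flow_diag (j i : ℕ) : flow A p (j + 1) (i + 1) ≤ flow A p j i := by
  rw [flow]
  exact min_le_left _ _

theorem flow_mono (j : ℕ) : ∀ i, flow A p j i ≤ flow A p (j + 1) i := by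
  induction j with
  | zero =>
    intro i
    cases i with
    | zero => rw [flow_zero, flow_zero]
    | succ i => simp [flow]
  | succ j ih =>
    intro i
    cases i with
    | zero => rw [flow_zero, flow_zero]
    | succ i =>
      rw [flow.eq_3 A p (j + 1) i]
      refine le_min ((flow_diag j i).trans (ih i)) (Nat.le_add_right _ _)

theorem flow_mono_le {j j' : ℕ} (h : j ≤ j') (i : ℕ) : flow A p j i ≤ flow A p j' i := by
  induction j', h using Nat.le_induction with
  | base => exact le_rfl
  | succ j' _ ih => exact ih.trans (flow_mono j' i)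

theorem flow_anti (j i : ℕ) : flow A p j (i + 1) ≤ flow A p j i := by
  cases j with
  | zero => simp [flow]
  | succ j => exact (flow_diag j i).trans (flow_mono j i)

theorem flow_anti_le {i i' : ℕ} (h : i ≤ i') (j : ℕ) : flow A p j i' ≤ flow A p j i := by
  induction i', h using Nat.le_induction with
  | base => exact le_rfl
  | succ i' _ ih => exact (flow_anti j i').trans ih

/-- the number of the elements of `D` which are larger than `j` -/
def above (D : Finset ℕ) (j : ℕ) : ℕ := (D.filter (j < ·)).card

/-- If the flow is smaller than `p` then there is a cut. -/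
theorem exists_cut (j : ℕ) : ∀ i, flow A p j i < p → ∃ D : Finset ℕ, D ⊆ range j ∧ D.card < i ∧
    ∑ j' ∈ range j \ D, A (i - 1 - above D j') j' ≤ flow A p j i := by
  induction j with
  | zero =>
    intro i hi
    refine ⟨∅, empty_subset _, ?_, by simp⟩
    rcases Nat.eq_zero_or_pos i with rfl | h
    · rw [flow_zero] at hi
      exact absurd hi (lt_irrefl _)
    · simpa using h
  | succ j ih =>
    intro i hi
    cases i with
    | zero =>
      rw [flow_zero] at hi
      exact absurd hi (lt_irrefl _)
    | succ i =>
      rw [flow] at hi ⊢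
      rcases le_total (flow A p j i) (flow A p j (i + 1) + A i j) with h | h
      · rw [min_eq_left h] at hi ⊢
        obtain ⟨D, hD, hc, hs⟩ := ih i hi
        have hj : j ∉ D := fun hj => by simpa using hD hj
        refine ⟨insert j D, ?_, ?_, ?_⟩
        · rw [range_add_one]
          exact insert_subset_insert _ hD
        · rw [card_insert_of_notMem hj]
          omega
        · have e1 : range (j + 1) \ insert j D = range j \ D := by
            ext x
            simp only [mem_sdiff, mem_range, mem_insert, not_or]
            constructor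
            · rintro ⟨h1, h2, h3⟩
              exact ⟨by omega, h3⟩
            · rintro ⟨h1, h2⟩
              exact ⟨by omega, by omega, h2⟩
          rw [e1]
          refine le_trans (le_of_eq ?_) hs
          refine sum_congr rfl fun x hx => ?_
          rw [mem_sdiff, mem_range] at hx
          have e2 : above (insert j D) x = above D x + 1 := by
            unfold above
            rw [filter_insert, if_pos hx.1, card_insert_of_notMem (by
              rw [mem_filter]
              exact fun h => hj h.1)]
          rw [e2]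
          congr 1
          omega
      · rw [min_eq_right h] at hi ⊢
        obtain ⟨D, hD, hc, hs⟩ := ih (i + 1) (by omega)
        have hj : j ∉ D := fun hj => by simpa using hD hj
        refine ⟨D, hD.trans (range_subset_range.2 (Nat.le_succ j)), hc, ?_⟩
        have e1 : range (j + 1) \ D = insert j (range j \ D) := by
          ext x
          simp only [mem_sdiff, mem_range, mem_insert]
          constructor
          · rintro ⟨h1, h2⟩
            rcases Nat.lt_or_ge x j with h3 | h3
            · exact Or.inr ⟨h3, h2⟩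
            · exact Or.inl (by omega)
          · rintro (rfl | ⟨h1, h2⟩)
            · exact ⟨by omega, hj⟩
            · exact ⟨by omega, h2⟩
        rw [e1, sum_insert (by simp)]
        have e2 : above D j = 0 := by
          unfold above
          rw [card_eq_zero, filter_eq_empty_iff]
          intro x hx
          have := hD hx
          rw [mem_range] at this
          omega
        rw [e2, add_comm]
        have e3 : i + 1 - 1 - 0 = i := by omega
        rw [e3]
        exact Nat.add_le_add_right hs _

/-- The matrix of the exponents contains `p` disjoint chains. -/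
def Packed {n k : ℕ} (p : ℕ) (a : Fin k × Fin n →₀ ℕ) : Prop :=
  ∃ f : Fin p → Fin n → Fin k, (∀ l, StrictMono (f l)) ∧
    ∀ x : Fin k × Fin n, Nat.card {l // f l x.2 = x.1} ≤ a x

/-- the entries -/
def ent {n k : ℕ} (a : Fin k × Fin n →₀ ℕ) (i j : ℕ) : ℕ :=
  if h : j < k ∧ i < n then a (⟨j, h.1⟩, ⟨i, h.2⟩) else 0

theorem packed_of_flow {n k : ℕ} (hn : 0 < n) (p : ℕ) (a : Fin k × Fin n →₀ ℕ)
    (h : p ≤ flow (ent a) p k n) : Packed p a := by
  classical
  have h1 : ∀ (l : Fin p) (i : Fin n), (l : ℕ) < flow (ent a) p k (i + 1) := fun l i =>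
    lt_of_lt_of_le l.2 (h.trans (flow_anti_le i.2 k))
  have h2 : ∀ (l : Fin p) (i : Fin n), ∃ j, (l : ℕ) < flow (ent a) p (j + 1) (i + 1) := by
    intro l i
    rcases Nat.eq_zero_or_pos k with rfl | hk
    · have := h1 l i
      simp [flow] at this
    · refine ⟨k - 1, ?_⟩
      rw [Nat.sub_add_cancel hk]
      exact h1 l i
  have hlt : ∀ (l : Fin p) (i : Fin n), Nat.find (h2 l i) < k := by
    intro l i
    rcases Nat.eq_zero_or_pos k with rfl | hk
    · have := h1 l i
      simp [flow] at this
    · have : Nat.find (h2 l i) ≤ k - 1 := Nat.find_min' _ (by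
        rw [Nat.sub_add_cancel hk]
        exact h1 l i)
      omega
  refine ⟨fun l i => ⟨Nat.find (h2 l i), hlt l i⟩, fun l => ?_, fun x => ?_⟩
  · -- strictly increasing
    have step : ∀ (i : ℕ) (hi : i + 1 < n),
        Nat.find (h2 l ⟨i, by omega⟩) < Nat.find (h2 l ⟨i + 1, hi⟩) := by
      intro i hi
      have h3 := Nat.find_spec (h2 l ⟨i + 1, hi⟩)
      set j := Nat.find (h2 l ⟨i + 1, hi⟩) with hj
      have h4 : (l : ℕ) < flow (ent a) p j (i + 1) := lt_of_lt_of_le h3 (flow_diag j (i + 1))
      rcases Nat.eq_zero_or_pos j with h0 | h0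
      · rw [h0] at h4
        simp [flow] at h4
      · have h5 : Nat.find (h2 l ⟨i, by omega⟩) ≤ j - 1 := Nat.find_min' _ (by
          rw [Nat.sub_add_cancel h0]
          exact h4)
        omega
    have key : ∀ (d i : ℕ) (hi : i + (d + 1) < n),
        Nat.find (h2 l ⟨i, by omega⟩) < Nat.find (h2 l ⟨i + (d + 1), hi⟩) := by
      intro d
      induction d with
      | zero => exact fun i hi => step i hi
      | succ d ih =>
        intro i hi
        exact (ih i (by omega)).trans (step (i + (d + 1)) hi)
    intro i i' hii
    have hii' : (i : ℕ) < i' := hii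
    have h6 := key (i' - i - 1) i (by omega)
    have e : (i : ℕ) + (i' - i - 1 + 1) = i' := by omega
    simp only [e] at h6
    exact h6
  · -- multiplicities
    obtain ⟨x, y⟩ := x
    have h3 : ∀ l : {l : Fin p // (⟨Nat.find (h2 l y), hlt l y⟩ : Fin k) = x},
        flow (ent a) p x (y + 1) ≤ (l.1 : ℕ) ∧ (l.1 : ℕ) < flow (ent a) p (x + 1) (y + 1) := by
      rintro ⟨l, hl⟩
      have hl' : Nat.find (h2 l y) = (x : ℕ) := congrArg Fin.val hl
      refine ⟨?_, ?_⟩
      · by_contra hcon
        push Not at hcon
        rcases Nat.eq_zero_or_pos (x : ℕ) with h0 | h0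
        · rw [h0] at hcon
          simp [flow] at hcon
        · have := Nat.find_min' (h2 l y) (m := (x : ℕ) - 1) (by
            rw [Nat.sub_add_cancel h0]
            exact hcon)
          omega
      · have := Nat.find_spec (h2 l y)
        rwa [hl'] at this
    have h4 : Nat.card {l : Fin p // (⟨Nat.find (h2 l y), hlt l y⟩ : Fin k) = x} ≤
        (Finset.Ico (flow (ent a) p x (y + 1)) (flow (ent a) p (x + 1) (y + 1))).card := by
      have h7 := Nat.card_le_card_of_injective
        (fun l : {l : Fin p // (⟨Nat.find (h2 l y), hlt l y⟩ : Fin k) = x} =>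
          (⟨(l.1 : ℕ), Finset.mem_Ico.2 (h3 l)⟩ :
            {z // z ∈ Finset.Ico (flow (ent a) p x (y + 1)) (flow (ent a) p (x + 1) (y + 1))}))
        (fun l l' hl => Subtype.ext (Fin.ext (congrArg Subtype.val hl)))
      refine h7.trans (le_of_eq ?_)
      rw [Nat.card_eq_fintype_card, Fintype.card_coe]
    refine h4.trans ?_
    rw [Nat.card_Ico]
    have h5 := flow_le_add (A := ent a) (p := p) x y
    have h6 : ent a y x = a (x, y) := by
      unfold ent
      rw [dif_pos ⟨x.2, y.2⟩]
    rw [h6] at h5
    omega

/-- the cells of a cut -/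
def cut (n k : ℕ) (D : Finset ℕ) : Finset (Fin k × Fin n) :=
  univ.filter fun x => (x.1 : ℕ) ∉ D ∧ (x.2 : ℕ) = n - 1 - above D x.1

/-- **The cuts.** If the matrix does not contain `p` disjoint chains then it has a cut whose sum is less
than `p`. -/
theorem exists_cut_of_not_packed {n k : ℕ} (hn : 0 < n) (p : ℕ) (a : Fin k × Fin n →₀ ℕ)
    (h : ¬ Packed p a) : ∃ D : Finset ℕ, D ⊆ range k ∧ D.card < n ∧ ∑ x ∈ cut n k D, a x < p := by
  have h1 : flow (ent a) p k n < p := by
    by_contra hcon
    push Not at hcon
    exact h (packed_of_flow hn p a hcon)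
  obtain ⟨D, hD, hc, hs⟩ := exists_cut k n h1
  refine ⟨D, hD, hc, lt_of_le_of_lt (le_trans (le_of_eq ?_) hs) h1⟩
  refine sum_bij (fun x _ => (x.1 : ℕ)) (fun x hx => ?_) (fun x hx y hy hxy => ?_)
    (fun j hj => ?_) (fun x hx => ?_)
  · rw [cut, mem_filter] at hx
    rw [mem_sdiff, mem_range]
    exact ⟨x.1.2, hx.2.1⟩
  · rw [cut, mem_filter] at hx hy
    have e1 : x.1 = y.1 := Fin.ext hxy
    refine Prod.ext e1 (Fin.ext ?_)
    rw [hx.2.2, hy.2.2, e1]
  · rw [mem_sdiff, mem_range] at hj
    have hlt : n - 1 - above D j < n := by omega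
    refine ⟨(⟨j, hj.1⟩, ⟨n - 1 - above D j, hlt⟩), ?_, rfl⟩
    rw [cut, mem_filter]
    exact ⟨mem_univ _, hj.2, rfl⟩
  · rw [cut, mem_filter] at hx
    rw [← hx.2.2]
    unfold ent
    rw [dif_pos ⟨x.1.2, x.2.2⟩]

/-- A cut has at least `k + 1 - n` cells. -/
theorem card_cut {n k : ℕ} (hn : 0 < n) (D : Finset ℕ) (hD : D ⊆ range k) (hc : D.card < n) :
    k + 1 - n ≤ (cut n k D).card := by
  have h1 : (range k \ D).card = k - D.card := by
    rw [card_sdiff_of_subset hD, card_range]
  have h2 : (range k \ D).card ≤ (cut n k D).card := by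
    refine card_le_card_of_surjOn (fun x => (x.1 : ℕ)) fun j hj => ?_
    rw [mem_coe, mem_sdiff, mem_range] at hj
    have hlt : n - 1 - above D j < n := by omega
    refine ⟨(⟨j, hj.1⟩, ⟨n - 1 - above D j, hlt⟩), ?_, rfl⟩
    rw [mem_coe, cut, mem_filter]
    exact ⟨mem_univ _, hj.2, rfl⟩
  omega

/-- For `n ≥ 2` there is a cell in the first column which is not in the cut. -/
theorem exists_free {n k : ℕ} (hn : 2 ≤ n) (hk : 0 < k) (D : Finset ℕ) :
    ∃ i : Fin n, ((⟨0, hk⟩ : Fin k), i) ∉ cut n k D := by
  by_cases h : n - 1 - above D 0 = 0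
  · refine ⟨⟨1, by omega⟩, fun h1 => ?_⟩
    rw [cut, mem_filter] at h1
    have := h1.2.2
    simp only at this
    omega
  · refine ⟨⟨0, by omega⟩, fun h1 => ?_⟩
    rw [cut, mem_filter] at h1
    have := h1.2.2
    simp only at this
    omega

end Pool.Agent.H54.KB
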